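import Pool.Graph.R_seed8.R789.LogHomeo

/-!
# Maps with a projective derivative

`PD f p A`: the chords of `f` near `p` have asymptotically the directions of their images under the
linear map `A`. Such maps send curves with secant directions to curves with secant directions. The
property is stable under composition, inversion and limits that are uniform on chord directions.
-/

set_option autoImplicit false

namespace BD82

open Set hiding unit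
open Filter Topology R789.Sec R789.LogMap

/-- chords of `f` near `p` have asymptotically the direction of their images under `A` -/
def PD (f : ℂ → ℂ) (p : ℂ) (A : ℂ →L[ℝ] ℂ) : Prop :=
  ∀ ε : ℝ, 0 < ε → ∃ δ : ℝ, 0 < δ ∧ ∀ a b : ℂ, ‖a - p‖ < δ → ‖b - p‖ < δ → a ≠ b →
    ‖unit (f b - f a) - unit (A (b - a))‖ < ε

theorem unit_zero' : unit (0 : ℂ) = 0 := by simp [unit]

theorem unit_dist (x : ℂ) {y : ℂ} (hy : y ≠ 0) : ‖unit x - unit y‖ ≤ 2 * ‖x - y‖ / ‖y‖ := by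
  have hy0 : 0 < ‖y‖ := norm_pos_iff.2 hy
  by_cases hx : x = 0
  · subst hx
    rw [unit_zero', zero_sub, norm_neg, norm_unit hy, zero_sub, norm_neg, le_div_iff₀ hy0]
    linarith
  have hx0 : 0 < ‖x‖ := norm_pos_iff.2 hx
  have h1 : unit x - unit y = ‖y‖⁻¹ • (x - y) + (‖x‖⁻¹ - ‖y‖⁻¹) • x := by
    unfold unit
    module
  rw [h1]
  refine (norm_add_le _ _).trans ?_
  rw [norm_smul, norm_smul, Real.norm_eq_abs, Real.norm_eq_abs, abs_of_pos (inv_pos.2 hy0)]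
  have h2 : |‖x‖⁻¹ - ‖y‖⁻¹| * ‖x‖ = |‖y‖ - ‖x‖| / ‖y‖ := by
    have h3 : ‖x‖⁻¹ - ‖y‖⁻¹ = (‖y‖ - ‖x‖) / (‖x‖ * ‖y‖) := by field_simp
    rw [h3, abs_div, abs_of_pos (mul_pos hx0 hy0)]
    field_simp
  rw [h2]
  have h4 : |‖y‖ - ‖x‖| ≤ ‖x - y‖ := by
    rw [abs_sub_comm]
    exact abs_norm_sub_norm_le x y
  have h5 : |‖y‖ - ‖x‖| / ‖y‖ ≤ ‖x - y‖ / ‖y‖ := div_le_div_of_nonneg_right h4 hy0.le
  calc ‖y‖⁻¹ * ‖x - y‖ + |‖y‖ - ‖x‖| / ‖y‖ ≤ ‖y‖⁻¹ * ‖x - y‖ + ‖x - y‖ / ‖y‖ := by linarith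
    _ = 2 * ‖x - y‖ / ‖y‖ := by ring

theorem unit_ne_zero {x : ℂ} (hx : x ≠ 0) : unit x ≠ 0 := by
  rw [← norm_ne_zero_iff, norm_unit hx]
  exact one_ne_zero

theorem unit_map_unit (A : ℂ →L[ℝ] ℂ) {u : ℂ} (hu : u ≠ 0) : unit (A (unit u)) = unit (A u) := by
  have h : A (unit u) = ‖u‖⁻¹ • A u := by rw [unit, map_smul]
  rw [h]
  exact unit_smul_pos (inv_pos.2 (norm_pos_iff.2 hu))

theorem unit_map (A : ℂ →L[ℝ] ℂ) {m : ℝ} (hm : 0 < m) (hA : ∀ v, m * ‖v‖ ≤ ‖A v‖) {u w : ℂ}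
    (hu : u ≠ 0) (hw : w ≠ 0) :
    ‖unit (A u) - unit (A w)‖ ≤ 2 * ‖A‖ / m * ‖unit u - unit w‖ := by
  rw [← unit_map_unit A hu, ← unit_map_unit A hw]
  have h1 : m ≤ ‖A (unit w)‖ := by
    have := hA (unit w)
    rwa [norm_unit hw, mul_one] at this
  have h2 : A (unit w) ≠ 0 := by
    rw [← norm_pos_iff]
    linarith
  refine (unit_dist _ h2).trans ?_
  have h3 : ‖A (unit u) - A (unit w)‖ ≤ ‖A‖ * ‖unit u - unit w‖ := by
    rw [← map_sub]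
    exact A.le_opNorm _
  have h4 : 0 ≤ ‖A‖ * ‖unit u - unit w‖ := by positivity
  calc 2 * ‖A (unit u) - A (unit w)‖ / ‖A (unit w)‖
      ≤ 2 * (‖A‖ * ‖unit u - unit w‖) / ‖A (unit w)‖ := by
        apply div_le_div_of_nonneg_right _ (norm_nonneg _)
        linarith
    _ ≤ 2 * (‖A‖ * ‖unit u - unit w‖) / m := by
        apply div_le_div_of_nonneg_left (by positivity) hm h1
    _ = 2 * ‖A‖ / m * ‖unit u - unit w‖ := by ring

theorem ne_zero_of_bound {A : ℂ →L[ℝ] ℂ} {m : ℝ} (hm : 0 < m) (hA : ∀ v, m * ‖v‖ ≤ ‖A v‖) {v : ℂ}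
    (hv : v ≠ 0) : A v ≠ 0 := by
  rw [← norm_pos_iff]
  have := hA v
  have h2 : 0 < m * ‖v‖ := mul_pos hm (norm_pos_iff.2 hv)
  linarith

theorem PD.comp {f g : ℂ → ℂ} {p : ℂ} {A B : ℂ →L[ℝ] ℂ} (hf : PD f p A) (hg : PD g (f p) B)
    (hc : ContinuousAt f p) (hi : Function.Injective f) {m n : ℝ} (hm : 0 < m) (hn : 0 < n)
    (hA : ∀ v, m * ‖v‖ ≤ ‖A v‖) (hB : ∀ v, n * ‖v‖ ≤ ‖B v‖) :
    PD (fun z => g (f z)) p (B.comp A) := by
  intro ε hε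
  obtain ⟨δ₁, hδ₁, h1⟩ := hg (ε / 2) (half_pos hε)
  have hK : 0 < 2 * ‖B‖ / n + 1 := by positivity
  obtain ⟨δ₂, hδ₂, h2⟩ := hf (ε / 2 / (2 * ‖B‖ / n + 1)) (by positivity)
  obtain ⟨δ₃, hδ₃, h3⟩ := Metric.continuousAt_iff.1 hc δ₁ hδ₁
  refine ⟨min δ₂ δ₃, lt_min hδ₂ hδ₃, fun a b ha hb hab => ?_⟩
  have ha' : ‖f a - f p‖ < δ₁ := by
    rw [← dist_eq_norm]
    exact h3 (by rw [dist_eq_norm]; exact ha.trans_le (min_le_right _ _))
  have hb' : ‖f b - f p‖ < δ₁ := by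
    rw [← dist_eq_norm]
    exact h3 (by rw [dist_eq_norm]; exact hb.trans_le (min_le_right _ _))
  have hfab : f a ≠ f b := fun h => hab (hi h)
  have e1 := h1 (f a) (f b) ha' hb' hfab
  have e2 := h2 a b (ha.trans_le (min_le_left _ _)) (hb.trans_le (min_le_left _ _)) hab
  have hne : b - a ≠ 0 := sub_ne_zero.2 hab.symm
  have hA0 : A (b - a) ≠ 0 := ne_zero_of_bound hm hA hne
  have hf0 : f b - f a ≠ 0 := sub_ne_zero.2 hfab.symm
  have e3 := unit_map B hn hB hf0 hA0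
  have e4 : unit (g (f b) - g (f a)) - unit ((B.comp A) (b - a))
      = (unit (g (f b) - g (f a)) - unit (B (f b - f a)))
        + (unit (B (f b - f a)) - unit (B (A (b - a)))) := by
    rw [ContinuousLinearMap.comp_apply]
    ring
  show ‖unit (g (f b) - g (f a)) - unit ((B.comp A) (b - a))‖ < ε
  rw [e4]
  refine (norm_add_le _ _).trans_lt ?_
  have e5 : 2 * ‖B‖ / n * ‖unit (f b - f a) - unit (A (b - a))‖ ≤ ε / 2 := by
    have h5 : 2 * ‖B‖ / n * ‖unit (f b - f a) - unit (A (b - a))‖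
        ≤ (2 * ‖B‖ / n + 1) * (ε / 2 / (2 * ‖B‖ / n + 1)) := by
      apply mul_le_mul (by linarith) e2.le (norm_nonneg _) hK.le
    rw [mul_div_cancel₀ _ hK.ne'] at h5
    exact h5
  linarith

theorem PD.symm (h : ℂ ≃ₜ ℂ) {p : ℂ} {A : ℂ ≃L[ℝ] ℂ} (hA : PD h p (A : ℂ →L[ℝ] ℂ)) :
    PD h.symm (h p) (A.symm : ℂ →L[ℝ] ℂ) := by
  intro ε hε
  -- lower bound for the inverse
  set m : ℝ := (‖(A : ℂ →L[ℝ] ℂ)‖ + 1)⁻¹ with hm
  have hm0 : 0 < m := by positivity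
  have hlow : ∀ v, m * ‖v‖ ≤ ‖(A.symm : ℂ →L[ℝ] ℂ) v‖ := by
    intro v
    have h1 : ‖v‖ ≤ ‖(A : ℂ →L[ℝ] ℂ)‖ * ‖A.symm v‖ := by
      have := (A : ℂ →L[ℝ] ℂ).le_opNorm (A.symm v)
      simpa using this
    rw [hm, inv_mul_le_iff₀ (by positivity)]
    have h2 : (0 : ℝ) ≤ ‖A.symm v‖ := norm_nonneg _
    have h3 : ‖(A.symm : ℂ →L[ℝ] ℂ) v‖ = ‖A.symm v‖ := rfl
    rw [h3]
    linarith
  set K : ℝ := 2 * ‖(A.symm : ℂ →L[ℝ] ℂ)‖ / m with hK
  have hK0 : 0 ≤ K := by positivity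
  obtain ⟨δ₁, hδ₁, h1⟩ := hA (ε / (K + 1)) (by positivity)
  have hc : ContinuousAt h.symm (h p) := h.symm.continuous.continuousAt
  obtain ⟨δ₂, hδ₂, h2⟩ := Metric.continuousAt_iff.1 hc δ₁ hδ₁
  refine ⟨δ₂, hδ₂, fun a b ha hb hab => ?_⟩
  have ha' : ‖h.symm a - p‖ < δ₁ := by
    have := h2 (x := a) (by rw [dist_eq_norm]; exact ha)
    rwa [h.symm_apply_apply, dist_eq_norm] at this
  have hb' : ‖h.symm b - p‖ < δ₁ := by
    have := h2 (x := b) (by rw [dist_eq_norm]; exact hb)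
    rwa [h.symm_apply_apply, dist_eq_norm] at this
  have hne : h.symm a ≠ h.symm b := fun e => hab (h.symm.injective e)
  have e1 := h1 _ _ ha' hb' hne
  rw [h.apply_symm_apply, h.apply_symm_apply] at e1
  have hba : b - a ≠ 0 := sub_ne_zero.2 hab.symm
  have hxy : h.symm b - h.symm a ≠ 0 := sub_ne_zero.2 hne.symm
  have hAxy : (A : ℂ →L[ℝ] ℂ) (h.symm b - h.symm a) ≠ 0 := by
    intro h0
    apply hxy
    have h1 : A (h.symm b - h.symm a) = 0 := h0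
    exact A.map_eq_zero_iff.1 h1
  have e2 := unit_map (A.symm : ℂ →L[ℝ] ℂ) hm0 hlow hba hAxy
  have e3 : (A.symm : ℂ →L[ℝ] ℂ) ((A : ℂ →L[ℝ] ℂ) (h.symm b - h.symm a)) = h.symm b - h.symm a := by
    simp
  rw [e3] at e2
  rw [norm_sub_rev]
  refine e2.trans_lt ?_
  have e4 : K * ‖unit (b - a) - unit ((A : ℂ →L[ℝ] ℂ) (h.symm b - h.symm a))‖
      ≤ K * (ε / (K + 1)) := mul_le_mul_of_nonneg_left e1.le hK0
  have e5 : K * (ε / (K + 1)) < ε := by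
    rw [mul_div_assoc', div_lt_iff₀ (by positivity)]
    nlinarith
  exact e4.trans_lt e5

/-- A homeomorphism with a projective derivative at every point maps `C¹` curves to `C¹` curves. -/
theorem PD.secDir {f : ℂ → ℂ} {γ : ℝ → ℂ} {t₀ : ℝ} {v : ℂ} {A : ℂ →L[ℝ] ℂ}
    (hf : PD f (γ t₀) A) (hγ : HasStrictDerivAt γ v t₀) (hAv : A v ≠ 0)
    (hi : ∀ s t, s < t → t < s + 1 → γ s ≠ γ t) :
    SecDir (fun t => f (γ t)) t₀ (unit (A v)) := by
  have h1 : SecDir (fun t => A (γ t)) t₀ (unit (A v)) :=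
    secDir_of_strict (A.hasStrictFDerivAt.comp_hasStrictDerivAt t₀ hγ) hAv
  have h2 : Tendsto (fun q : ℝ × ℝ => unit (f (γ q.2) - f (γ q.1)) - unit (A (γ q.2) - A (γ q.1)))
      (𝓝[ltSet] (t₀, t₀)) (𝓝 0) := by
    rw [Metric.tendsto_nhds]
    intro ε hε
    obtain ⟨δ, hδ, h⟩ := hf ε hε
    have hc := hγ.hasDerivAt.continuousAt
    have k1 : ∀ᶠ q : ℝ × ℝ in 𝓝 (t₀, t₀), ‖γ q.1 - γ t₀‖ < δ := by
      have hcc : ContinuousAt (fun q : ℝ × ℝ => ‖γ q.1 - γ t₀‖) (t₀, t₀) := by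
        have : ContinuousAt (fun q : ℝ × ℝ => γ q.1) (t₀, t₀) :=
          ContinuousAt.comp (f := fun q : ℝ × ℝ => q.1) (x := (t₀, t₀)) hc continuousAt_fst
        exact (this.sub continuousAt_const).norm
      exact hcc.eventually_lt continuousAt_const (by simpa using hδ)
    have k2 : ∀ᶠ q : ℝ × ℝ in 𝓝 (t₀, t₀), ‖γ q.2 - γ t₀‖ < δ := by
      have hcc : ContinuousAt (fun q : ℝ × ℝ => ‖γ q.2 - γ t₀‖) (t₀, t₀) := by
        have : ContinuousAt (fun q : ℝ × ℝ => γ q.2) (t₀, t₀) :=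
          ContinuousAt.comp (f := fun q : ℝ × ℝ => q.2) (x := (t₀, t₀)) hc continuousAt_snd
        exact (this.sub continuousAt_const).norm
      exact hcc.eventually_lt continuousAt_const (by simpa using hδ)
    have hne := Data.eventually_ne_of_secDir hi t₀
    filter_upwards [mem_nhdsWithin_of_mem_nhds k1, mem_nhdsWithin_of_mem_nhds k2, hne] with q q1 q2 q3
    rw [dist_zero_right, ← map_sub]
    exact h _ _ q1 q2 q3
  have h3 := h2.add h1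
  rw [zero_add] at h3
  refine h3.congr fun q => ?_
  simp

/-- limits -/
theorem PD.limit {Fn : ℕ → ℂ → ℂ} {F : ℂ → ℂ} {p : ℂ} {An : ℕ → ℂ →L[ℝ] ℂ} {A : ℂ →L[ℝ] ℂ}
    {m : ℝ} (hm : 0 < m) (hA : ∀ v, m * ‖v‖ ≤ ‖A v‖) (hP : ∀ n, PD (Fn n) p (An n))
    (hd : ∀ ε : ℝ, 0 < ε → ∃ N : ℕ, ∀ n, N ≤ n → ∀ a b : ℂ, a ≠ b →
      ‖unit (Fn n b - Fn n a) - unit (F b - F a)‖ < ε)
    (hl : Tendsto An atTop (𝓝 A)) : PD F p A := by
  intro ε hε
  obtain ⟨N₁, h1⟩ := hd (ε / 3) (by positivity)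
  have h2 : ∀ᶠ n in atTop, ‖An n - A‖ < m * (ε / 6) := by
    have := Metric.tendsto_nhds.1 hl (m * (ε / 6)) (by positivity)
    simpa [dist_eq_norm] using this
  obtain ⟨N₂, h2⟩ := eventually_atTop.1 h2
  set n := max N₁ N₂ with hn
  obtain ⟨δ, hδ, h3⟩ := hP n (ε / 3) (by positivity)
  refine ⟨δ, hδ, fun a b ha hb hab => ?_⟩
  have e1 := h1 n (le_max_left _ _) a b hab
  have e2 := h2 n (le_max_right _ _)
  have e3 := h3 a b ha hb hab
  have hv : b - a ≠ 0 := sub_ne_zero.2 hab.symm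
  have hv0 : 0 < ‖b - a‖ := norm_pos_iff.2 hv
  have hAv : A (b - a) ≠ 0 := ne_zero_of_bound hm hA hv
  have hAv0 : 0 < ‖A (b - a)‖ := norm_pos_iff.2 hAv
  have e4 : ‖unit (An n (b - a)) - unit (A (b - a))‖ ≤ ε / 3 := by
    refine (unit_dist _ hAv).trans ?_
    have e5 : ‖An n (b - a) - A (b - a)‖ ≤ m * (ε / 6) * ‖b - a‖ := by
      have := (An n - A).le_opNorm (b - a)
      rw [_root_.sub_apply] at this
      exact this.trans (mul_le_mul_of_nonneg_right e2.le hv0.le)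
    rw [div_le_iff₀ hAv0]
    have e6 := hA (b - a)
    nlinarith
  have e7 : unit (F b - F a) - unit (A (b - a))
      = -(unit (Fn n b - Fn n a) - unit (F b - F a))
        + (unit (Fn n b - Fn n a) - unit (An n (b - a)))
        + (unit (An n (b - a)) - unit (A (b - a))) := by ring
  rw [e7]
  refine (norm_add_le _ _).trans_lt ?_
  have e8 := norm_add_le (-(unit (Fn n b - Fn n a) - unit (F b - F a)))
    (unit (Fn n b - Fn n a) - unit (An n (b - a)))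
  rw [norm_neg] at e8
  linarith

theorem equiv_of_bound {A : ℂ →L[ℝ] ℂ} {m : ℝ} (hm : 0 < m) (hA : ∀ v, m * ‖v‖ ≤ ‖A v‖) :
    ∃ e : ℂ ≃L[ℝ] ℂ, (e : ℂ →L[ℝ] ℂ) = A := by
  have hinj : Function.Injective A := by
    rw [injective_iff_map_eq_zero]
    intro v hv
    by_contra h
    exact ne_zero_of_bound hm hA h hv
  refine ⟨(LinearEquiv.ofInjectiveEndo (A : ℂ →ₗ[ℝ] ℂ) hinj).toContinuousLinearEquiv, ?_⟩
  ext1
  rfl

end BD82
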