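import Pool.Agent.BD82.A

/-!
# The building block

`blk c p` is the homeomorphism `z ↦ (1 + c) z + c log(1 + 1/|z - p|) (z - p)`.
-/

set_option autoImplicit false

namespace BD82

open Set hiding unit
open Filter Topology R789.Sec R789.LogMap

/-- one centre `p` with weight `c` -/
def blk (c : ℝ) (hc : 0 ≤ c) (p : ℂ) : Data Unit where
  c := fun _ => c
  p := fun _ => p
  hc := fun _ => hc
  hs := (hasSum_fintype _).summable

variable {c : ℝ} (hc : 0 ≤ c) (p : ℂ)

theorem blk_tot : (blk c hc p).tot = c := by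
  unfold Data.tot
  rw [tsum_fintype]
  simp [blk]

theorem blk_F (z : ℂ) : (blk c hc p).F 0 z = (1 + c) • z + c • rad 0 (z - p) := by
  unfold Data.F
  rw [blk_tot, tsum_fintype]
  simp [blk]

theorem blk_lam (a b : ℂ) :
    (blk c hc p).lam 0 a b = 1 + c + c * ell 0 (max ‖a - p‖ ‖b - p‖) := by
  unfold Data.lam
  rw [blk_tot, tsum_fintype]
  simp [blk]

theorem blk_growth (z : ℂ) : ‖(blk c hc p).F 0 z - z‖ ≤ c * (‖z‖ + 1) := by
  rw [blk_F]
  have h1 : (1 + c) • z + c • rad 0 (z - p) - z = c • z + c • rad 0 (z - p) := by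
    rw [add_smul, one_smul]
    ring
  rw [h1]
  refine (norm_add_le _ _).trans ?_
  rw [norm_smul, norm_smul, Real.norm_eq_abs, abs_of_nonneg hc]
  have := norm_rad_le (le_refl (0 : ℝ)) (z - p)
  nlinarith

theorem blk_expand (a b : ℂ) : ‖b - a‖ ≤ ‖(blk c hc p).F 0 b - (blk c hc p).F 0 a‖ :=
  (blk c hc p).F_expand le_rfl a b

theorem blk_diff {a b : ℂ} (hab : a ≠ b) :
    ‖(blk c hc p).F 0 b - (blk c hc p).F 0 a - (blk c hc p).lam 0 a b • (b - a)‖
      ≤ c * ‖b - a‖ := by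
  have := Data.F_diff' (D := blk c hc p) hab
  rwa [blk_tot] at this

theorem blk_lam_ge (a b : ℂ) : 1 + c ≤ (blk c hc p).lam 0 a b := by
  have := (blk c hc p).lam_ge le_rfl a b
  rwa [blk_tot] at this

theorem blk_dir {a b : ℂ} (hab : a ≠ b) :
    ‖unit ((blk c hc p).F 0 b - (blk c hc p).F 0 a) - unit (b - a)‖ ≤ 2 * c := by
  have h1 := blk_lam_ge hc p a b
  have h2 := unit_close hc (by linarith) (sub_ne_zero.2 hab.symm) (blk_diff hc p hab)
  refine h2.trans ?_
  apply div_le_self (by linarith)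
  linarith

/-- `ell 0` blows up at `0` -/
theorem ell_blow (M : ℝ) : ∃ δ : ℝ, 0 < δ ∧ ∀ r : ℝ, 0 < r → r < δ → M ≤ ell 0 r := by
  refine ⟨Real.exp (-M), Real.exp_pos _, fun r hr hrδ => ?_⟩
  unfold ell
  rw [add_zero]
  have h1 : Real.exp M ≤ 1 + 1 / r := by
    have h2 : Real.exp M ≤ 1 / r := by
      rw [le_div_iff₀ hr]
      calc Real.exp M * r ≤ Real.exp M * Real.exp (-M) :=
            mul_le_mul_of_nonneg_left hrδ.le (Real.exp_pos _).le
        _ = 1 := by rw [← Real.exp_add]; simp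
    linarith
  calc M = Real.log (Real.exp M) := (Real.log_exp M).symm
    _ ≤ Real.log (1 + 1 / r) := Real.log_le_log (Real.exp_pos _) h1

/-- the block has infinite derivative at its centre -/
theorem blk_blow (hc0 : 0 < c) (M : ℝ) : ∃ δ : ℝ, 0 < δ ∧ ∀ a b : ℂ, ‖a - p‖ < δ → ‖b - p‖ < δ →
    a ≠ b → M ≤ (blk c hc p).lam 0 a b := by
  obtain ⟨δ, hδ, h⟩ := ell_blow (M / c)
  refine ⟨δ, hδ, fun a b ha hb hab => ?_⟩
  rw [blk_lam]
  have h1 : 0 < max ‖a - p‖ ‖b - p‖ := by
    by_contra hcon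
    push Not at hcon
    have h2 : ‖a - p‖ = 0 := le_antisymm ((le_max_left _ _).trans hcon) (norm_nonneg _)
    have h3 : ‖b - p‖ = 0 := le_antisymm ((le_max_right _ _).trans hcon) (norm_nonneg _)
    rw [norm_eq_zero, sub_eq_zero] at h2 h3
    exact hab (h2.trans h3.symm)
  have h4 := h _ h1 (max_lt ha hb)
  rw [div_le_iff₀ hc0] at h4
  linarith

theorem blk_infinite (hc0 : 0 < c) (M : ℝ) : ∃ δ : ℝ, 0 < δ ∧ ∀ b : ℂ, ‖b - p‖ < δ →
    M * ‖b - p‖ ≤ ‖(blk c hc p).F 0 b - (blk c hc p).F 0 p‖ := by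
  obtain ⟨δ, hδ, h⟩ := blk_blow hc p hc0 (|M| + c)
  refine ⟨δ, hδ, fun b hb => ?_⟩
  by_cases hbp : p = b
  · subst hbp
    simp
  have h1 := h p b (by simpa using hδ) hb hbp
  have h2 := blk_diff hc p hbp
  have h3 : (blk c hc p).lam 0 p b * ‖b - p‖
      ≤ ‖(blk c hc p).F 0 b - (blk c hc p).F 0 p‖ + c * ‖b - p‖ := by
    have h4 : (blk c hc p).lam 0 p b • (b - p) = ((blk c hc p).F 0 b - (blk c hc p).F 0 p)
        - ((blk c hc p).F 0 b - (blk c hc p).F 0 p - (blk c hc p).lam 0 p b • (b - p)) := by ring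
    have h5 := norm_sub_le ((blk c hc p).F 0 b - (blk c hc p).F 0 p)
      ((blk c hc p).F 0 b - (blk c hc p).F 0 p - (blk c hc p).lam 0 p b • (b - p))
    rw [← h4, norm_smul, Real.norm_eq_abs, abs_of_nonneg (by have := abs_nonneg M; linarith)] at h5
    linarith
  have h6 : (|M| + c) * ‖b - p‖ ≤ (blk c hc p).lam 0 p b * ‖b - p‖ :=
    mul_le_mul_of_nonneg_right h1 (norm_nonneg _)
  have h7 : M * ‖b - p‖ ≤ |M| * ‖b - p‖ :=
    mul_le_mul_of_nonneg_right (le_abs_self M) (norm_nonneg _)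
  nlinarith

/-- strict differentiability gives a projective derivative -/
theorem PD.of_strict {f : ℂ → ℂ} {z : ℂ} {L : ℂ →L[ℝ] ℂ} (hL : HasStrictFDerivAt f L z) {m : ℝ}
    (hm : 0 < m) (hb : ∀ v, m * ‖v‖ ≤ ‖L v‖) : PD f z L := by
  intro ε hε
  have h1 := Asymptotics.isLittleO_iff.1 (hasStrictFDerivAt_iff_isLittleO.1 hL)
    (show 0 < m * (ε / 4) by positivity)
  obtain ⟨δ, hδ, h2⟩ := Metric.eventually_nhds_iff.1 h1
  refine ⟨δ, hδ, fun a b ha hb' hab => ?_⟩
  have h3 := @h2 (b, a) (by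
    rw [Prod.dist_eq, dist_eq_norm, dist_eq_norm]
    exact max_lt hb' ha)
  have hv : b - a ≠ 0 := sub_ne_zero.2 hab.symm
  have hv0 : 0 < ‖b - a‖ := norm_pos_iff.2 hv
  have hLv := ne_zero_of_bound hm hb hv
  refine (unit_dist _ hLv).trans_lt ?_
  have hLv0 : 0 < ‖L (b - a)‖ := norm_pos_iff.2 hLv
  rw [div_lt_iff₀ hLv0]
  have h4 := hb (b - a)
  have h5 : ‖f b - f a - L (b - a)‖ ≤ m * (ε / 4) * ‖b - a‖ := h3
  nlinarith [mul_pos hm hv0]

theorem PD.smul_pos {f : ℂ → ℂ} {z : ℂ} {L : ℂ →L[ℝ] ℂ} {r : ℝ} (hr : 0 < r) (h : PD f z L) :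
    PD f z (r • L) := by
  intro ε hε
  obtain ⟨δ, hδ, h1⟩ := h ε hε
  refine ⟨δ, hδ, fun a b ha hb hab => ?_⟩
  have h2 := h1 a b ha hb hab
  have h3 : (r • L) (b - a) = r • L (b - a) := rfl
  rw [h3, unit_smul_pos hr]
  exact h2

/-- the block has at each point a projective derivative close to the identity -/
theorem blk_PD (hc0 : 0 < c) (z : ℂ) : ∃ G : ℂ →L[ℝ] ℂ, PD ((blk c hc p).F 0) z G ∧
    ‖G - ContinuousLinearMap.id ℝ ℂ‖ ≤ c := by
  by_cases hz : z = p
  · subst hz
    refine ⟨ContinuousLinearMap.id ℝ ℂ, ?_, by simpa using hc⟩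
    intro ε hε
    obtain ⟨δ, hδ, h⟩ := blk_blow hc z hc0 (c + 1 + 2 * c / ε + 2 * c / ε)
    refine ⟨δ, hδ, fun a b ha hb hab => ?_⟩
    have h1 := h a b ha hb hab
    have h0 : 0 < 2 * c / ε := by positivity
    have h2 := unit_close hc (by linarith) (sub_ne_zero.2 hab.symm) (blk_diff hc z hab)
    refine h2.trans_lt ?_
    rw [div_lt_iff₀ (by linarith)]
    have h3 : ε * (2 * c / ε) = 2 * c := by field_simp
    nlinarith
  · have hd : 0 < ‖z - p‖ := norm_pos_iff.2 (sub_ne_zero.2 hz)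
    obtain ⟨L, hL⟩ := (blk c hc p).exists_hasStrictFDerivAt (z₀ := z) (δ := ‖z - p‖ / 2)
      (by positivity) (fun i => by
        show 2 * (‖z - p‖ / 2) ≤ ‖z - p‖
        linarith)
    have hLb : ∀ v, 1 * ‖v‖ ≤ ‖L v‖ := fun v => by
      rw [one_mul]
      exact (blk c hc p).deriv_injective hL.hasFDerivAt v
    set l : ℝ := 1 + c + c * ell 0 ‖z - p‖ with hl
    have hell : 0 ≤ ell 0 ‖z - p‖ := ell_nonneg le_rfl hd.le
    have hl1 : 1 ≤ l := by
      rw [hl]
      nlinarith [mul_nonneg hc hell]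
    have hl0 : 0 < l := by linarith
    have key : ∀ v, ‖L v - l • v‖ ≤ c * ‖v‖ := by
      intro v
      have h1 := hL.hasFDerivAt.hasLineDerivAt v
      have h2 := h1.tendsto_slope_zero
      have h3 : Tendsto (fun t : ℝ => (blk c hc p).lam 0 z (z + t • v) • v) (𝓝[≠] 0) (𝓝 (l • v)) := by
        have h4 : Tendsto (fun t : ℝ => (blk c hc p).lam 0 z (z + t • v)) (𝓝[≠] 0) (𝓝 l) := by
          have h5 : ContinuousAt (fun t : ℝ => 1 + c + c * ell 0 (max ‖z - p‖ ‖z + t • v - p‖)) 0 := by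
            unfold ell
            have h6 : ContinuousAt (fun t : ℝ => max ‖z - p‖ ‖z + t • v - p‖ + 0) 0 := by
              fun_prop
            have h7 : (max ‖z - p‖ ‖z + (0 : ℝ) • v - p‖ + 0) ≠ 0 := by
              simp only [zero_smul, add_zero, max_self]
              exact hd.ne'
            have h8 : ContinuousAt (fun t : ℝ => 1 + 1 / (max ‖z - p‖ ‖z + t • v - p‖ + 0)) 0 :=
              continuousAt_const.add (continuousAt_const.div h6 h7)
            have h9 : (1 + 1 / (max ‖z - p‖ ‖z + (0 : ℝ) • v - p‖ + 0)) ≠ 0 := by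
              simp only [zero_smul, add_zero, max_self]
              positivity
            exact continuousAt_const.add (continuousAt_const.mul (h8.log h9))
          have h10 := h5.tendsto
          simp only [zero_smul, add_zero, max_self] at h10
          refine (h10.mono_left nhdsWithin_le_nhds).congr fun t => ?_
          rw [blk_lam]
        exact h4.smul_const v
      have h4 := (h2.sub h3).norm
      refine le_of_tendsto h4 ?_
      filter_upwards [self_mem_nhdsWithin] with t ht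
      have ht0 : t ≠ 0 := ht
      by_cases hv : v = 0
      · subst hv
        simp
      have hne : z ≠ z + t • v := by
        intro h
        have : t • v = 0 := by
          have := congrArg (fun x => x - z) h
          simpa using this.symm
        rcases smul_eq_zero.1 this with h | h
        · exact ht0 h
        · exact hv h
      have h5 := blk_diff hc p hne
      rw [add_sub_cancel_left] at h5
      have h6 : t⁻¹ • ((blk c hc p).F 0 (z + t • v) - (blk c hc p).F 0 z)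
          - (blk c hc p).lam 0 z (z + t • v) • v
          = t⁻¹ • ((blk c hc p).F 0 (z + t • v) - (blk c hc p).F 0 z
            - (blk c hc p).lam 0 z (z + t • v) • t • v) := by
        rw [smul_sub t⁻¹ ((blk c hc p).F 0 (z + t • v) - (blk c hc p).F 0 z) _, smul_comm _ t v,
          smul_smul t⁻¹ t, inv_mul_cancel₀ ht0, one_smul]
      rw [h6, norm_smul, norm_inv]
      have h7 : 0 < ‖t‖ := norm_pos_iff.2 ht0
      rw [inv_mul_le_iff₀ h7]
      rw [norm_smul] at h5
      linarith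
    refine ⟨l⁻¹ • L, (PD.of_strict hL one_pos hLb).smul_pos (inv_pos.2 hl0), ?_⟩
    apply ContinuousLinearMap.opNorm_le_bound _ hc
    intro v
    have h1 : (l⁻¹ • L - ContinuousLinearMap.id ℝ ℂ) v = l⁻¹ • (L v - l • v) := by
      rw [smul_sub, smul_smul, inv_mul_cancel₀ hl0.ne', one_smul]
      rfl
    rw [h1, norm_smul, norm_inv, Real.norm_eq_abs, abs_of_pos hl0, inv_mul_le_iff₀ hl0]
    refine (key v).trans ?_
    have : 0 ≤ c * ‖v‖ := by positivity
    nlinarith

end BD82
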