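import Pool.Agent.BD82.B

/-!
# Infinite compositions

`Fs w n` is the composition of `n` building blocks with the weights `c k = 2^{-k}/8`, the `k`-th one
centred at the present position of the point `w k`. The maps `Fs w n` converge to a homeomorphism
with a projective derivative at every point and with infinite derivative at every `w k`.
-/

set_option autoImplicit false

namespace BD82

open Set hiding unit
open Filter Topology R789.Sec R789.LogMap

/-- the weights -/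
noncomputable def cc (n : ℕ) : ℝ := (1 / 2) ^ n / 8

theorem cc_pos (n : ℕ) : 0 < cc n := by unfold cc; positivity

theorem cc_nonneg (n : ℕ) : 0 ≤ cc n := (cc_pos n).le

/-- the finite compositions -/
noncomputable def Fs (w : ℕ → ℂ) : ℕ → ℂ → ℂ
  | 0 => id
  | (n + 1) => fun z => (blk (cc n) (cc_nonneg n) (Fs w n (w n))).F 0 (Fs w n z)

variable (w : ℕ → ℂ)

theorem Fs_succ (n : ℕ) (z : ℂ) :
    Fs w (n + 1) z = (blk (cc n) (cc_nonneg n) (Fs w n (w n))).F 0 (Fs w n z) := rfl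

theorem Fs_continuous (n : ℕ) : Continuous (Fs w n) := by
  induction n with
  | zero => exact continuous_id
  | succ n ih => exact (Data.F_continuous _).comp ih

theorem Fs_surjective (n : ℕ) : Function.Surjective (Fs w n) := by
  induction n with
  | zero => exact Function.surjective_id
  | succ n ih => exact (Data.F_surjective _).comp ih

theorem Fs_step (n : ℕ) (a b : ℂ) : ‖Fs w n b - Fs w n a‖ ≤ ‖Fs w (n + 1) b - Fs w (n + 1) a‖ :=
  blk_expand _ _ _ _

theorem Fs_mono {n m : ℕ} (h : n ≤ m) (a b : ℂ) :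
    ‖Fs w n b - Fs w n a‖ ≤ ‖Fs w m b - Fs w m a‖ := by
  induction m, h using Nat.le_induction with
  | base => exact le_rfl
  | succ m _ ih => exact ih.trans (Fs_step w m a b)

theorem Fs_expand (n : ℕ) (a b : ℂ) : ‖b - a‖ ≤ ‖Fs w n b - Fs w n a‖ :=
  Fs_mono w (Nat.zero_le n) a b

theorem Fs_injective (n : ℕ) : Function.Injective (Fs w n) := by
  intro a b h
  have := Fs_expand w n a b
  rw [h, sub_self, norm_zero] at this
  exact (sub_eq_zero.1 (norm_le_zero_iff.1 this)).symm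

theorem aux_step (n : ℕ) {x y z : ℝ} (hz : 0 ≤ z) (hx : x ≤ (2 - (1 / 2) ^ n) * z)
    (hy : y ≤ x + cc n * x) : y ≤ (2 - (1 / 2) ^ (n + 1)) * z := by
  have h0 : (0 : ℝ) < (1 / 2) ^ n := by positivity
  have h1 : ((1 : ℝ) / 2) ^ n ≤ 1 := pow_le_one₀ (by norm_num) (by norm_num)
  set t : ℝ := (1 / 2) ^ n with ht
  have h2 : ((1 : ℝ) / 2) ^ (n + 1) = t / 2 := by rw [pow_succ, ht]; ring
  have h3 : cc n = t / 8 := rfl
  rw [h2]
  rw [h3] at hy
  have h4 : x + t / 8 * x = (1 + t / 8) * x := by ring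
  have h5 : (1 + t / 8) * x ≤ (1 + t / 8) * ((2 - t) * z) :=
    mul_le_mul_of_nonneg_left hx (by positivity)
  have h6 : (1 + t / 8) * ((2 - t) * z) ≤ (2 - t / 2) * z := by
    have : (1 + t / 8) * (2 - t) ≤ 2 - t / 2 := by nlinarith
    calc (1 + t / 8) * ((2 - t) * z) = ((1 + t / 8) * (2 - t)) * z := by ring
      _ ≤ (2 - t / 2) * z := mul_le_mul_of_nonneg_right this hz
  linarith

theorem Fs_growth (n : ℕ) (z : ℂ) : ‖Fs w n z‖ + 1 ≤ (2 - (1 / 2) ^ n) * (‖z‖ + 1) := by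
  induction n with
  | zero =>
    simp only [pow_zero]
    show ‖z‖ + 1 ≤ (2 - 1) * (‖z‖ + 1)
    linarith
  | succ n ih =>
    refine aux_step n (by positivity) ih ?_
    have h1 := blk_growth (cc_nonneg n) (Fs w n (w n)) (Fs w n z)
    rw [← Fs_succ] at h1
    have h2 : ‖Fs w (n + 1) z‖ ≤ ‖Fs w n z‖ + ‖Fs w (n + 1) z - Fs w n z‖ := by
      have : Fs w (n + 1) z = Fs w n z + (Fs w (n + 1) z - Fs w n z) := by ring
      conv_lhs => rw [this]
      exact norm_add_le _ _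
    linarith

theorem Fs_dist (n : ℕ) (z : ℂ) :
    dist (Fs w n z) (Fs w (n + 1) z) ≤ (‖z‖ + 1) / 4 * (1 / 2) ^ n := by
  rw [dist_comm, dist_eq_norm]
  have h1 := blk_growth (cc_nonneg n) (Fs w n (w n)) (Fs w n z)
  rw [← Fs_succ] at h1
  refine h1.trans ?_
  have h2 := Fs_growth w n z
  have h3 : (0 : ℝ) < (1 / 2) ^ n := by positivity
  have h4 : ‖Fs w n z‖ + 1 ≤ 2 * (‖z‖ + 1) := by
    refine h2.trans (mul_le_mul_of_nonneg_right (by linarith) (by positivity))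
  have h5 : cc n * (‖Fs w n z‖ + 1) ≤ cc n * (2 * (‖z‖ + 1)) :=
    mul_le_mul_of_nonneg_left h4 (cc_nonneg n)
  have h6 : cc n * (2 * (‖z‖ + 1)) = (‖z‖ + 1) / 4 * (1 / 2) ^ n := by
    unfold cc; ring
  linarith

theorem Fs_cauchy (z : ℂ) : CauchySeq fun n => Fs w n z :=
  cauchySeq_of_le_geometric (1 / 2) ((‖z‖ + 1) / 4) (by norm_num) fun n => Fs_dist w n z

/-- the limit map -/
noncomputable def FF (z : ℂ) : ℂ := (cauchySeq_tendsto_of_complete (Fs_cauchy w z)).choose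

theorem FF_tendsto (z : ℂ) : Tendsto (fun n => Fs w n z) atTop (𝓝 (FF w z)) :=
  (cauchySeq_tendsto_of_complete (Fs_cauchy w z)).choose_spec

theorem FF_close (n : ℕ) (z : ℂ) : ‖Fs w n z - FF w z‖ ≤ (‖z‖ + 1) / 2 * (1 / 2) ^ n := by
  rw [← dist_eq_norm]
  have := dist_le_of_le_geometric_of_tendsto (1 / 2) ((‖z‖ + 1) / 4) (by norm_num)
    (fun n => Fs_dist w n z) (FF_tendsto w z) n
  refine this.trans (le_of_eq ?_)
  ring

theorem FF_expand_n (n : ℕ) (a b : ℂ) : ‖Fs w n b - Fs w n a‖ ≤ ‖FF w b - FF w a‖ := by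
  have h : Tendsto (fun m => ‖Fs w m b - Fs w m a‖) atTop (𝓝 ‖FF w b - FF w a‖) :=
    ((FF_tendsto w b).sub (FF_tendsto w a)).norm
  refine ge_of_tendsto h ?_
  filter_upwards [eventually_ge_atTop n] with m hm
  exact Fs_mono w hm a b

theorem FF_expand (a b : ℂ) : ‖b - a‖ ≤ ‖FF w b - FF w a‖ := FF_expand_n w 0 a b

theorem FF_injective : Function.Injective (FF w) := by
  intro a b h
  have := FF_expand w a b
  rw [h, sub_self, norm_zero] at this
  exact (sub_eq_zero.1 (norm_le_zero_iff.1 this)).symm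

theorem half_pow_tendsto (C : ℝ) : Tendsto (fun n : ℕ => C * (1 / 2 : ℝ) ^ n) atTop (𝓝 0) := by
  have := (tendsto_pow_atTop_nhds_zero_of_lt_one (r := (1 / 2 : ℝ)) (by norm_num)
    (by norm_num)).const_mul C
  simpa using this

theorem FF_continuous : Continuous (FF w) := by
  rw [continuous_iff_continuousAt]
  intro z₀
  rw [Metric.continuousAt_iff]
  intro ε hε
  obtain ⟨n, hn⟩ := ((half_pow_tendsto ((‖z₀‖ + 2) / 2)).eventually_lt_const
    (show (0 : ℝ) < ε / 3 by positivity)).exists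
  obtain ⟨δ, hδ, h1⟩ := Metric.continuousAt_iff.1 (Fs_continuous w n).continuousAt (ε / 3)
    (by positivity)
  refine ⟨min δ 1, lt_min hδ one_pos, fun z hz => ?_⟩
  have h2 := h1 (hz.trans_le (min_le_left _ _))
  have h3 := hz.trans_le (min_le_right _ _)
  rw [dist_eq_norm] at h2 h3 ⊢
  have h4 : ‖z‖ ≤ ‖z₀‖ + 1 := by
    have : z = z₀ + (z - z₀) := by ring
    calc ‖z‖ = ‖z₀ + (z - z₀)‖ := by rw [← this]
      _ ≤ ‖z₀‖ + ‖z - z₀‖ := norm_add_le _ _
      _ ≤ ‖z₀‖ + 1 := by linarith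
  have h5 := FF_close w n z
  have h6 := FF_close w n z₀
  have h0 : (0 : ℝ) < (1 / 2) ^ n := by positivity
  have h7 : (‖z‖ + 1) / 2 * (1 / 2) ^ n ≤ (‖z₀‖ + 2) / 2 * (1 / 2) ^ n :=
    mul_le_mul_of_nonneg_right (by linarith) h0.le
  have h8 : (‖z₀‖ + 1) / 2 * (1 / 2) ^ n ≤ (‖z₀‖ + 2) / 2 * (1 / 2) ^ n :=
    mul_le_mul_of_nonneg_right (by linarith) h0.le
  have h9 : FF w z - FF w z₀ = -(Fs w n z - FF w z) + (Fs w n z - Fs w n z₀)
      + (Fs w n z₀ - FF w z₀) := by ring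
  rw [h9]
  have h10 := norm_add_le (-(Fs w n z - FF w z) + (Fs w n z - Fs w n z₀)) (Fs w n z₀ - FF w z₀)
  have h11 := norm_add_le (-(Fs w n z - FF w z)) (Fs w n z - Fs w n z₀)
  rw [norm_neg] at h11
  linarith

theorem FF_surjective : Function.Surjective (FF w) := by
  intro y
  choose z hz using fun n : ℕ => Fs_surjective w n y
  -- the points stay bounded
  have hb : ∀ n, ‖z n‖ ≤ ‖y‖ + 1 := by
    intro n
    have h1 := Fs_expand w n 0 (z n)
    rw [sub_zero, hz n] at h1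
    have h2 := Fs_growth w n 0
    rw [norm_zero, zero_add, mul_one] at h2
    have h3 : (0 : ℝ) < (1 / 2) ^ n := by positivity
    have h4 := norm_sub_le y (Fs w n 0)
    linarith
  have hclose : ∀ n, ‖FF w (z n) - y‖ ≤ (‖y‖ + 2) / 2 * (1 / 2) ^ n := by
    intro n
    have h1 := FF_close w n (z n)
    rw [hz n, norm_sub_rev] at h1
    refine h1.trans (mul_le_mul_of_nonneg_right ?_ (by positivity))
    have := hb n
    linarith
  have hlim : Tendsto (fun n => FF w (z n)) atTop (𝓝 y) := by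
    rw [← tendsto_sub_nhds_zero_iff]
    exact squeeze_zero_norm hclose (half_pow_tendsto _)
  have hcau : CauchySeq z := by
    have h1 := hlim.cauchySeq
    rw [Metric.cauchySeq_iff'] at h1 ⊢
    intro ε hε
    obtain ⟨N, hN⟩ := h1 ε hε
    refine ⟨N, fun n hn => lt_of_le_of_lt ?_ (hN n hn)⟩
    rw [dist_eq_norm, dist_eq_norm]
    exact FF_expand w _ _
  obtain ⟨z₀, hz₀⟩ := cauchySeq_tendsto_of_complete hcau
  exact ⟨z₀, tendsto_nhds_unique (((FF_continuous w).tendsto z₀).comp hz₀) hlim⟩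

/-- the limit homeomorphism -/
noncomputable def homeo : ℂ ≃ₜ ℂ where
  toEquiv := Equiv.ofBijective (FF w) ⟨FF_injective w, FF_surjective w⟩
  continuous_toFun := FF_continuous w
  continuous_invFun := by
    have : LipschitzWith 1 (Equiv.ofBijective (FF w) ⟨FF_injective w, FF_surjective w⟩).symm := by
      apply LipschitzWith.of_dist_le_mul
      intro a b
      rw [NNReal.coe_one, one_mul, dist_eq_norm, dist_eq_norm]
      set e := Equiv.ofBijective (FF w) ⟨FF_injective w, FF_surjective w⟩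
      have h1 : ∀ x, FF w (e.symm x) = x := fun x => e.apply_symm_apply x
      have := FF_expand w (e.symm b) (e.symm a)
      rwa [h1, h1] at this
    exact this.continuous

theorem homeo_coe : (homeo w : ℂ → ℂ) = FF w := rfl

/-! ### Directions of chords -/

theorem Fs_dir (n : ℕ) {a b : ℂ} (hab : a ≠ b) :
    dist (unit (Fs w n b - Fs w n a)) (unit (Fs w (n + 1) b - Fs w (n + 1) a))
      ≤ 1 / 4 * (1 / 2) ^ n := by
  rw [dist_comm, dist_eq_norm]
  have h := blk_dir (cc_nonneg n) (Fs w n (w n)) (a := Fs w n a) (b := Fs w n b)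
    (fun h => hab (Fs_injective w n h))
  refine h.trans (le_of_eq ?_)
  unfold cc
  ring

theorem unit_continuousAt {v : ℂ} (hv : v ≠ 0) : ContinuousAt (unit : ℂ → ℂ) v := by
  unfold unit
  have : ‖v‖ ≠ 0 := norm_ne_zero_iff.2 hv
  exact (continuous_norm.continuousAt.inv₀ this).smul continuousAt_id

theorem FF_dir (n : ℕ) {a b : ℂ} (hab : a ≠ b) :
    ‖unit (Fs w n b - Fs w n a) - unit (FF w b - FF w a)‖ ≤ 1 / 2 * (1 / 2) ^ n := by
  rw [← dist_eq_norm]
  have hne : FF w b - FF w a ≠ 0 := sub_ne_zero.2 fun h => hab (FF_injective w h).symm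
  have hl : Tendsto (fun n => unit (Fs w n b - Fs w n a)) atTop (𝓝 (unit (FF w b - FF w a))) :=
    (unit_continuousAt hne).tendsto.comp ((FF_tendsto w b).sub (FF_tendsto w a))
  have := dist_le_of_le_geometric_of_tendsto (1 / 2) (1 / 4) (by norm_num)
    (fun n => Fs_dir w n hab) hl n
  refine this.trans (le_of_eq ?_)
  ring

/-! ### Projective derivatives -/

theorem bound_of_close {G : ℂ →L[ℝ] ℂ} {r : ℝ} (h : ‖G - ContinuousLinearMap.id ℝ ℂ‖ ≤ r) (v : ℂ) :
    (1 - r) * ‖v‖ ≤ ‖G v‖ := by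
  have h1 := (G - ContinuousLinearMap.id ℝ ℂ).le_opNorm v
  have h2 : (G - ContinuousLinearMap.id ℝ ℂ) v = G v - v := rfl
  rw [h2] at h1
  have h3 : v = G v - (G v - v) := by ring
  have h4 : ‖v‖ ≤ ‖G v‖ + ‖G v - v‖ := by
    calc ‖v‖ = ‖G v - (G v - v)‖ := by rw [← h3]
      _ ≤ _ := norm_sub_le _ _
  have h5 : ‖G - ContinuousLinearMap.id ℝ ℂ‖ * ‖v‖ ≤ r * ‖v‖ :=
    mul_le_mul_of_nonneg_right h (norm_nonneg v)
  linarith

theorem cc_le (n : ℕ) : cc n ≤ 1 / 8 := by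
  unfold cc
  have h1 : ((1 : ℝ) / 2) ^ n ≤ 1 := pow_le_one₀ (by norm_num) (by norm_num)
  linarith

/-- the factors -/
noncomputable def GG (p : ℂ) (n : ℕ) : ℂ →L[ℝ] ℂ :=
  (blk_PD (cc_nonneg n) (Fs w n (w n)) (cc_pos n) (Fs w n p)).choose

theorem GG_spec (p : ℂ) (n : ℕ) :
    PD ((blk (cc n) (cc_nonneg n) (Fs w n (w n))).F 0) (Fs w n p) (GG w p n) ∧
      ‖GG w p n - ContinuousLinearMap.id ℝ ℂ‖ ≤ cc n :=
  (blk_PD (cc_nonneg n) (Fs w n (w n)) (cc_pos n) (Fs w n p)).choose_spec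

/-- the products -/
noncomputable def AA (p : ℂ) : ℕ → ℂ →L[ℝ] ℂ
  | 0 => ContinuousLinearMap.id ℝ ℂ
  | (n + 1) => (GG w p n).comp (AA p n)

theorem AA_dist_aux (p : ℂ) (n : ℕ) : ‖AA w p (n + 1) - AA w p n‖ ≤ cc n * ‖AA w p n‖ := by
  have h1 : AA w p (n + 1) - AA w p n
      = (GG w p n - ContinuousLinearMap.id ℝ ℂ).comp (AA w p n) := by
    ext v
    rfl
  rw [h1]
  refine (ContinuousLinearMap.opNorm_comp_le _ _).trans ?_
  exact mul_le_mul_of_nonneg_right (GG_spec w p n).2 (norm_nonneg _)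

theorem AA_norm (p : ℂ) (n : ℕ) : ‖AA w p n‖ ≤ (2 - (1 / 2) ^ n) * 1 := by
  induction n with
  | zero =>
    simp only [pow_zero]
    show ‖ContinuousLinearMap.id ℝ ℂ‖ ≤ (2 - 1) * 1
    have := ContinuousLinearMap.norm_id_le (𝕜 := ℝ) (E := ℂ)
    linarith
  | succ n ih =>
    refine aux_step n zero_le_one ih ?_
    have h1 := AA_dist_aux w p n
    have h2 : ‖AA w p (n + 1)‖ ≤ ‖AA w p n‖ + ‖AA w p (n + 1) - AA w p n‖ := by
      have : AA w p (n + 1) = AA w p n + (AA w p (n + 1) - AA w p n) := by abel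
      conv_lhs => rw [this]
      exact norm_add_le _ _
    linarith

theorem AA_dist (p : ℂ) (n : ℕ) : dist (AA w p n) (AA w p (n + 1)) ≤ 1 / 4 * (1 / 2) ^ n := by
  rw [dist_comm, dist_eq_norm]
  refine (AA_dist_aux w p n).trans ?_
  have h1 := AA_norm w p n
  have h2 : (0 : ℝ) < (1 / 2) ^ n := by positivity
  have h3 : cc n * ‖AA w p n‖ ≤ cc n * 2 :=
    mul_le_mul_of_nonneg_left (by linarith) (cc_nonneg n)
  refine h3.trans (le_of_eq ?_)
  unfold cc
  ring

theorem AA_bound (p : ℂ) {A : ℂ →L[ℝ] ℂ} (hA : Tendsto (AA w p) atTop (𝓝 A)) :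
    ‖A - ContinuousLinearMap.id ℝ ℂ‖ ≤ 1 / 2 := by
  have := dist_le_of_le_geometric_of_tendsto (1 / 2) (1 / 4) (by norm_num)
    (fun n => AA_dist w p n) hA 0
  rw [dist_comm, dist_eq_norm] at this
  refine (show ‖A - ContinuousLinearMap.id ℝ ℂ‖ ≤ _ from this).trans (le_of_eq ?_)
  norm_num

theorem AA_bound_n (p : ℂ) (n : ℕ) : ‖AA w p n - ContinuousLinearMap.id ℝ ℂ‖ ≤ 1 / 2 := by
  have h : ‖AA w p n - ContinuousLinearMap.id ℝ ℂ‖ ≤ 1 / 2 - 1 / 2 * (1 / 2) ^ n := by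
    induction n with
    | zero =>
      show ‖ContinuousLinearMap.id ℝ ℂ - ContinuousLinearMap.id ℝ ℂ‖ ≤ _
      rw [sub_self, norm_zero]
      norm_num
    | succ n ih =>
      have h1 := AA_dist w p n
      rw [dist_comm, dist_eq_norm] at h1
      have h2 : AA w p (n + 1) - ContinuousLinearMap.id ℝ ℂ
          = (AA w p (n + 1) - AA w p n) + (AA w p n - ContinuousLinearMap.id ℝ ℂ) := by abel
      rw [h2]
      refine (norm_add_le _ _).trans ?_
      have h3 : (1 / 2 : ℝ) ^ (n + 1) = (1 / 2) ^ n / 2 := by rw [pow_succ]; ring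
      rw [h3]
      linarith
  have h2 : (0 : ℝ) < (1 / 2) ^ n := by positivity
  linarith

theorem Fs_PD (p : ℂ) (n : ℕ) : PD (Fs w n) p (AA w p n) := by
  induction n with
  | zero =>
    intro ε hε
    refine ⟨1, one_pos, fun a b _ _ _ => ?_⟩
    show ‖unit (b - a) - unit (b - a)‖ < ε
    rw [sub_self, norm_zero]
    exact hε
  | succ n ih =>
    exact PD.comp (f := Fs w n) (g := (blk (cc n) (cc_nonneg n) (Fs w n (w n))).F 0)
      ih (GG_spec w p n).1 (Fs_continuous w n).continuousAt (Fs_injective w n)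
      (m := 1 - 1 / 2) (n := 1 - 1 / 8) (by norm_num) (by norm_num)
      (bound_of_close (AA_bound_n w p n)) (bound_of_close ((GG_spec w p n).2.trans (cc_le n)))

/-- the limit has a projective derivative at every point -/
theorem FF_PD (p : ℂ) : ∃ e : ℂ ≃L[ℝ] ℂ, PD (FF w) p (e : ℂ →L[ℝ] ℂ) := by
  have hc : CauchySeq (AA w p) :=
    cauchySeq_of_le_geometric (1 / 2) (1 / 4) (by norm_num) fun n => AA_dist w p n
  obtain ⟨A, hA⟩ := cauchySeq_tendsto_of_complete hc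
  have hb := bound_of_close (AA_bound w p hA)
  obtain ⟨e, he⟩ := equiv_of_bound (by norm_num) hb
  refine ⟨e, ?_⟩
  rw [he]
  refine PD.limit (m := 1 - 1 / 2) (by norm_num) hb (Fs_PD w p) ?_ hA
  intro ε hε
  obtain ⟨N, hN⟩ := eventually_atTop.1 ((half_pow_tendsto (1 / 2)).eventually_lt_const hε)
  exact ⟨N, fun n hn a b hab => (FF_dir w n hab).trans_lt (hN n hn)⟩

/-! ### Infinite derivative at the points `w k` -/

theorem FF_infinite (k : ℕ) (M : ℝ) : ∃ δ : ℝ, 0 < δ ∧ ∀ z : ℂ, ‖z - w k‖ < δ →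
    M * ‖z - w k‖ ≤ ‖FF w z - FF w (w k)‖ := by
  obtain ⟨δ₁, hδ₁, h1⟩ := blk_infinite (cc_nonneg k) (Fs w k (w k)) (cc_pos k) |M|
  obtain ⟨δ₂, hδ₂, h2⟩ := Metric.continuousAt_iff.1
    ((Fs_continuous w k).continuousAt (x := w k)) δ₁ hδ₁
  refine ⟨δ₂, hδ₂, fun z hz => ?_⟩
  have h3 := h2 (x := z) (by rw [dist_eq_norm]; exact hz)
  rw [dist_eq_norm] at h3
  have h4 := h1 _ h3
  have h5 := FF_expand_n w (k + 1) (w k) z
  rw [Fs_succ, Fs_succ] at h5
  have h6 := Fs_expand w k (w k) z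
  have h7 : M * ‖z - w k‖ ≤ |M| * ‖z - w k‖ :=
    mul_le_mul_of_nonneg_right (le_abs_self M) (norm_nonneg _)
  have h8 : |M| * ‖z - w k‖ ≤ |M| * ‖Fs w k z - Fs w k (w k)‖ :=
    mul_le_mul_of_nonneg_left h6 (abs_nonneg M)
  linarith

end BD82
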