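import Pool.Agent.BD82.C
import Pool.Graph.R_seed8.R789.C1Curve

/-!
# The limit homeomorphism preserves `C¹` curves and its non-differentiable set is residual
-/

set_option autoImplicit false

namespace BD82

open Set hiding unit
open Filter Topology R789.Sec R789.LogMap R789.C1
open scoped Manifold ContDiff

/-- homeomorphisms with projective derivatives map `C¹` curves to `C¹` curves -/
theorem image_of_PD (h : ℂ ≃ₜ ℂ) (hP : ∀ p, ∃ e : ℂ ≃L[ℝ] ℂ, PD h p (e : ℂ →L[ℝ] ℂ)) {Γ : Set ℂ}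
    (hΓ : R789.C1.IsC1Curve Γ) : R789.C1.IsC1Curve (h '' Γ) := by
  obtain ⟨γ, hc, hd, hp, hi, rfl⟩ := isC1Curve_plane.1 hΓ
  have hi' := inj_of_injOn hp hi
  have hs : ∀ t, HasStrictDerivAt γ (deriv γ t) t := fun t =>
    hc.contDiffAt.hasStrictDerivAt one_ne_zero
  have hT : ∀ t, ∃ T, SecDir (fun t => h (γ t)) t T := by
    intro t
    obtain ⟨e, he⟩ := hP (γ t)
    exact ⟨_, he.secDir (hs t) (by simpa using hd t) hi'⟩
  choose T hT using hT
  obtain ⟨γ', h1, h2, h3, h4, h5⟩ := exists_C1_param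
    (Γ := fun t => h (γ t)) (h.continuous.comp hc.continuous)
    (fun t => by simp only [hp]) (fun s t hst hts e => hi' s t hst hts (h.injective e)) hT
  rw [isC1Curve_plane]
  refine ⟨γ', h1, h2, h3, h4, ?_⟩
  rw [← h5, ← range_comp]
  rfl

theorem homeo_mem (w : ℕ → ℂ) : R789.C1.Homeo1 (homeo w) := by
  constructor
  · intro Γ hΓ
    exact image_of_PD (homeo w) (fun p => FF_PD w p) hΓ
  · intro Γ hΓ
    refine image_of_PD (homeo w).symm (fun q => ?_) hΓ
    obtain ⟨e, he⟩ := FF_PD w ((homeo w).symm q)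
    refine ⟨e.symm, ?_⟩
    have h := PD.symm (homeo w) (A := e) (p := (homeo w).symm q) he
    rwa [(homeo w).apply_symm_apply] at h

/-- the points with unbounded difference quotients at scales below `1 / (N + 1)` -/
def UU (w : ℕ → ℂ) (N : ℕ) : Set ℂ :=
  {z | ∃ y, ‖y - z‖ < 1 / ((N : ℝ) + 1) ∧ (N : ℝ) * ‖y - z‖ < ‖FF w y - FF w z‖}

theorem UU_open (w : ℕ → ℂ) (N : ℕ) : IsOpen (UU w N) := by
  have h : UU w N = ⋃ y, ({z | ‖y - z‖ < 1 / ((N : ℝ) + 1)} ∩
      {z | (N : ℝ) * ‖y - z‖ < ‖FF w y - FF w z‖}) := by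
    ext z
    simp [UU]
  rw [h]
  refine isOpen_iUnion fun y => ?_
  have hF := FF_continuous w
  exact (isOpen_lt (by fun_prop) continuous_const).inter (isOpen_lt (by fun_prop) (by fun_prop))

theorem mem_UU (w : ℕ → ℂ) (N k : ℕ) : w k ∈ UU w N := by
  obtain ⟨δ, hδ, h⟩ := FF_infinite w k ((N : ℝ) + 1)
  set r : ℝ := min δ (1 / ((N : ℝ) + 1)) / 2 with hr
  have hm : 0 < min δ (1 / ((N : ℝ) + 1)) := lt_min hδ (by positivity)
  have hr0 : 0 < r := by positivity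
  have hn : ‖(w k + (r : ℂ)) - w k‖ = r := by
    rw [add_sub_cancel_left, Complex.norm_real, Real.norm_eq_abs, abs_of_pos hr0]
  have h1 : r < δ := by
    have := min_le_left δ (1 / ((N : ℝ) + 1))
    linarith
  have h2 : r < 1 / ((N : ℝ) + 1) := by
    have := min_le_right δ (1 / ((N : ℝ) + 1))
    linarith
  refine ⟨w k + (r : ℂ), by rw [hn]; exact h2, ?_⟩
  have h3 := h (w k + (r : ℂ)) (by rw [hn]; exact h1)
  rw [hn] at h3 ⊢
  linarith

theorem nonDiff_of_mem (w : ℕ → ℂ) {z : ℂ} (hz : ∀ N, z ∈ UU w N) :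
    ¬ DifferentiableAt ℝ (FF w) z := by
  intro hd
  have h1 := hd.hasFDerivAt
  set A := fderiv ℝ (FF w) z
  have h2 := (hasFDerivAt_iff_isLittleO.1 h1)
  have h3 := Asymptotics.isLittleO_iff.1 h2 one_pos
  obtain ⟨δ, hδ, h4⟩ := Metric.eventually_nhds_iff.1 h3
  obtain ⟨N, hN⟩ := exists_nat_gt (max (1 / δ) (‖A‖ + 1))
  obtain ⟨y, hy1, hy2⟩ := hz N
  have hN1 : 1 / δ < (N : ℝ) := (le_max_left _ _).trans_lt hN
  have hN2 : ‖A‖ + 1 < (N : ℝ) := (le_max_right _ _).trans_lt hN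
  have hyδ : ‖y - z‖ < δ := by
    refine hy1.trans ?_
    rw [div_lt_iff₀ (by positivity)]
    rw [div_lt_iff₀ hδ] at hN1
    nlinarith
  have h5 := h4 (y := y) (by rw [dist_eq_norm]; exact hyδ)
  have h6 : ‖FF w y - FF w z‖ ≤ (‖A‖ + 1) * ‖y - z‖ := by
    have e1 : FF w y - FF w z = (FF w y - FF w z - A (y - z)) + A (y - z) := by ring
    rw [e1]
    refine (norm_add_le _ _).trans ?_
    have e2 := A.le_opNorm (y - z)
    linarith
  have h7 : (‖A‖ + 1) * ‖y - z‖ ≤ (N : ℝ) * ‖y - z‖ :=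
    mul_le_mul_of_nonneg_right hN2.le (norm_nonneg _)
  linarith

theorem nonDiff_residual (w : ℕ → ℂ) (hw : DenseRange w) :
    {z | ¬ DifferentiableAt ℝ (FF w) z} ∈ residual ℂ := by
  have h1 : (⋂ N, UU w N) ∈ residual ℂ := by
    rw [countable_iInter_mem]
    intro N
    refine residual_of_dense_open (UU_open w N) ?_
    exact hw.mono (by rintro _ ⟨k, rfl⟩; exact mem_UU w N k)
  exact mem_of_superset h1 fun z hz => nonDiff_of_mem w (fun N => mem_iInter.1 hz N)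

/-- a residual set of the plane is uncountable in each nonempty open set -/
theorem uncountable_of_residual {R : Set ℂ} (hR : R ∈ residual ℂ) {V : Set ℂ} (hV : IsOpen V)
    (hne : V.Nonempty) : ¬ (V ∩ R).Countable := by
  intro hc
  have h1 : (⋂ x ∈ V ∩ R, ({x}ᶜ : Set ℂ)) ∈ residual ℂ := by
    rw [countable_bInter_mem hc]
    intro x _
    exact residual_of_dense_open isOpen_compl_singleton (dense_compl_singleton x)
  have h2 : Dense (R ∩ ⋂ x ∈ V ∩ R, ({x}ᶜ : Set ℂ)) := dense_of_mem_residual (inter_mem hR h1)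
  obtain ⟨z, hzV, hzR, hz⟩ := h2.inter_open_nonempty V hV hne
  have h3 := mem_iInter₂.1 hz z ⟨hzV, hzR⟩
  exact h3 rfl

theorem infinite_deriv (w : ℕ → ℂ) (k : ℕ) :
    Tendsto (fun z => ‖FF w z - FF w (w k)‖ / ‖z - w k‖) (𝓝[≠] (w k)) atTop := by
  rw [tendsto_atTop]
  intro M
  obtain ⟨δ, hδ, h⟩ := FF_infinite w k M
  rw [eventually_nhdsWithin_iff]
  filter_upwards [Metric.ball_mem_nhds (w k) hδ] with z hz hne
  rw [Metric.mem_ball, dist_eq_norm] at hz
  have h0 : 0 < ‖z - w k‖ := norm_pos_iff.2 (sub_ne_zero.2 hne)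
  rw [le_div_iff₀ h0]
  exact h z hz

end BD82
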